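import Pool.Agent.TH498.AR.Fin

/-!
# The asymptotic number of the abc triples with a condition on the repeated part
-/

set_option autoImplicit false

namespace Pool.Agent.Y680.S

open Finset Filter Topology Pool.Agent.TH498.AR

/-- the triples whose radical is at most `θ X`, where the factor `θ` depends on the repeated part -/
def GT (θ : ℕ → ℝ) (X : ℝ) : Set (ℕ × ℕ) :=
  {p | 0 < p.1 ∧ p.1 ≤ p.2 ∧ Nat.Coprime p.1 p.2 ∧
    (rd (p.1 * p.2 * (p.1 + p.2)) : ℝ) ≤ θ (psi3 ∅ p) * X}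

/-- those with repeated part at most `W` -/
def GTW (θ : ℕ → ℝ) (W : ℕ) (X : ℝ) : Set (ℕ × ℕ) :=
  {p | p ∈ GT θ X ∧ psi3 ∅ p ≤ W}

lemma rd_pos' (n : ℕ) : (1 : ℝ) ≤ rd n := by
  have h : 0 < rd n := Finset.prod_pos fun p hp => (Nat.prime_of_mem_primeFactors hp).pos
  exact_mod_cast h

lemma theta_pos {θ : ℕ → ℝ} (hθ : ∀ w, 0 ≤ θ w) {X : ℝ} {p : ℕ × ℕ} (h : p ∈ GT θ X) :
    0 < θ (psi3 ∅ p) := by
  obtain ⟨-, -, -, h4⟩ := h
  rcases (hθ (psi3 ∅ p)).eq_or_lt with h0 | h0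
  · rw [← h0, zero_mul] at h4
    have := rd_pos' (p.1 * p.2 * (p.1 + p.2))
    linarith
  · exact h0

/-- the triples with bounded repeated part -/
theorem GTW_limit (θ : ℕ → ℝ) (hθ : ∀ w, 0 ≤ θ w) (W : ℕ) : ∃ κ : ℝ,
    Tendsto (fun X : ℝ => ((GTW θ W X).ncard : ℝ) / X ^ ((2 : ℝ) / 3)) atTop (𝓝 κ) := by
  classical
  choose! κ hκ using fun w : ℕ => fun hw : 0 < w => Nw_limit hw
  obtain ⟨I, hI⟩ : ∃ I : Finset ℕ, I = (Icc 1 W).filter (fun w => 0 < θ w) := ⟨_, rfl⟩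
  have hI1 : ∀ w ∈ I, 1 ≤ w ∧ w ≤ W ∧ 0 < θ w := by
    intro w hw
    rw [hI, mem_filter, mem_Icc] at hw
    exact ⟨hw.1.1, hw.1.2, hw.2⟩
  refine ⟨∑ w ∈ I, κ w * ((w : ℝ) * θ w) ^ ((2 : ℝ) / 3), ?_⟩
  have hlim : Tendsto (fun X : ℝ => ∑ w ∈ I,
      ((Nw w (((w : ℝ) * (θ w * X)) ^ ((1 : ℝ) / 3))).ncard : ℝ) /
        (((w : ℝ) * (θ w * X)) ^ ((1 : ℝ) / 3)) ^ 2 * ((w : ℝ) * θ w) ^ ((2 : ℝ) / 3)) atTop
      (𝓝 (∑ w ∈ I, κ w * ((w : ℝ) * θ w) ^ ((2 : ℝ) / 3))) := by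
    refine tendsto_finsetSum _ fun w hw => ?_
    obtain ⟨hw0, -, hw2⟩ := hI1 w hw
    refine Tendsto.mul_const _ ((hκ w hw0).comp ?_)
    refine (tendsto_rpow_atTop (by norm_num)).comp ?_
    refine Tendsto.const_mul_atTop (by exact_mod_cast hw0) ?_
    exact tendsto_id.const_mul_atTop hw2
  refine hlim.congr' ?_
  filter_upwards [eventually_gt_atTop 0] with X hX
  -- the union
  have hNfin : ∀ w : ℕ, (Nw w (((w : ℝ) * (θ w * X)) ^ ((1 : ℝ) / 3))).Finite :=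
    fun w => (VV_finite _).subset fun p hp => ⟨hp.1, hp.2.1, hp.2.2.2.2⟩
  have hset : GTW θ W X = ((I.biUnion (fun w => (hNfin w).toFinset) : Finset (ℕ × ℕ)) :
      Set (ℕ × ℕ)) := by
    ext p
    rw [mem_coe, mem_biUnion]
    constructor
    · rintro ⟨hp, a5⟩
      have h0 := theta_pos hθ hp
      obtain ⟨a1, a2, a3, a4⟩ := hp
      refine ⟨psi3 ∅ p, ?_, ?_⟩
      · rw [hI, mem_filter, mem_Icc]
        exact ⟨⟨psi3_pos a1 (by omega), a5⟩, h0⟩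
      rw [Set.Finite.mem_toFinset]
      exact ⟨a1, a2, a3, rfl, (rd_le_iff a1 (by omega) a3 (by positivity)).1 a4⟩
    · rintro ⟨w, hw, hp⟩
      rw [Set.Finite.mem_toFinset] at hp
      obtain ⟨a1, a2, a3, a4, a5⟩ := hp
      obtain ⟨-, hw1, hw2⟩ := hI1 w hw
      refine ⟨⟨a1, a2, a3, ?_⟩, ?_⟩
      · rw [a4, rd_le_iff a1 (by omega) a3 (by positivity), a4]
        exact a5
      · rw [a4]
        exact hw1
  have hcard : ((GTW θ W X).ncard : ℝ) =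
      ∑ w ∈ I, ((Nw w (((w : ℝ) * (θ w * X)) ^ ((1 : ℝ) / 3))).ncard : ℝ) := by
    rw [hset, Set.ncard_coe_finset, card_biUnion]
    · push_cast
      refine sum_congr rfl fun w _ => ?_
      exact_mod_cast (Set.ncard_eq_toFinset_card _ (hNfin w)).symm
    · intro w _ w' _ hne
      rw [Function.onFun, disjoint_left]
      intro p hp hp'
      rw [Set.Finite.mem_toFinset] at hp hp'
      exact hne (hp.2.2.2.1.symm.trans hp'.2.2.2.1)
  rw [hcard, sum_div]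
  refine sum_congr rfl fun w hw => ?_
  obtain ⟨hw0, -, hw2⟩ := hI1 w hw
  have hw0' : (0 : ℝ) < w := by exact_mod_cast hw0
  have e : (((w : ℝ) * (θ w * X)) ^ ((1 : ℝ) / 3)) ^ 2 =
      ((w : ℝ) * θ w) ^ ((2 : ℝ) / 3) * X ^ ((2 : ℝ) / 3) := by
    rw [← Real.rpow_natCast, ← Real.rpow_mul (by positivity), ← mul_assoc,
      Real.mul_rpow (by positivity) hX.le]
    norm_num
  rw [e]
  have h1 : ((w : ℝ) * θ w) ^ ((2 : ℝ) / 3) ≠ 0 := by positivity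
  have h2 : X ^ ((2 : ℝ) / 3) ≠ 0 := by positivity
  field_simp

/-- the number of all of them, given that large members are rare -/
theorem GT_limit (θ : ℕ → ℝ) (hθ : ∀ w, 0 ≤ θ w) (hθ2 : ∀ w, θ w ≤ 2)
    (hfin : ∀ X, (GT θ X).Finite) {ν D : ℝ} (hν : 0 < ν) (hD : 0 < D)
    (hlarge : ∀ X : ℝ, 1 ≤ X →
      ((({p | p ∈ GT θ X ∧ 2 * X < ((p.1 + p.2 : ℕ) : ℝ)} : Set (ℕ × ℕ)).ncard : ℕ) : ℝ) ≤
        D * X ^ (2 / 3 - ν)) : ∃ κ : ℝ,
    Tendsto (fun X : ℝ => ((GT θ X).ncard : ℝ) / X ^ ((2 : ℝ) / 3)) atTop (𝓝 κ) := by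
  classical
  obtain ⟨C0, hC0, htail⟩ := tail 1
  obtain ⟨C, hC⟩ : ∃ C : ℝ, C = 2 * C0 := ⟨_, rfl⟩
  have hC' : 0 < C := by rw [hC]; positivity
  refine tendsto_of_approx fun ε hε => ?_
  -- choice of W
  obtain ⟨W, hW1, hWe⟩ : ∃ W : ℕ, 1 ≤ W ∧ C * (W : ℝ) ^ (-(1 / 10) : ℝ) ≤ ε / 4 := by
    have h1 : Tendsto (fun W : ℕ => C * (W : ℝ) ^ (-(1 / 10) : ℝ)) atTop (𝓝 (C * 0)) :=
      ((tendsto_rpow_neg_atTop (by norm_num : (0 : ℝ) < 1 / 10)).comp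
        tendsto_natCast_atTop_atTop).const_mul C
    rw [mul_zero] at h1
    have h2 := h1.eventually (eventually_le_nhds (by positivity : (0 : ℝ) < ε / 4))
    obtain ⟨W, hW⟩ := (h2.and (eventually_ge_atTop 1)).exists
    exact ⟨W, hW.2, hW.1⟩
  obtain ⟨κ, hκ⟩ := GTW_limit θ hθ W
  refine ⟨κ, ?_⟩
  have h3 : Tendsto (fun X : ℝ => C * X ^ (-(1 / 480) : ℝ)) atTop (𝓝 (C * 0)) :=
    (tendsto_rpow_neg_atTop (by norm_num : (0 : ℝ) < 1 / 480)).const_mul C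
  rw [mul_zero] at h3
  have h4 := h3.eventually (eventually_le_nhds (by positivity : (0 : ℝ) < ε / 4))
  have h3' : Tendsto (fun X : ℝ => D * X ^ (-ν : ℝ)) atTop (𝓝 (D * 0)) :=
    (tendsto_rpow_neg_atTop hν).const_mul D
  rw [mul_zero] at h3'
  have h4' := h3'.eventually (eventually_le_nhds (by positivity : (0 : ℝ) < ε / 4))
  have h5 := (Metric.tendsto_nhds.1 hκ) (ε / 4) (by positivity)
  filter_upwards [h4, h4', h5, eventually_ge_atTop 1] with X hX4 hX4' hX5 hX1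
  have hX0 : 0 < X := by linarith
  have hXp : 0 < X ^ ((2 : ℝ) / 3) := by positivity
  have hsub : GTW θ W X ⊆ GT θ X := fun p hp => hp.1
  set E : Finset (ℕ × ℕ) := ((hfin X).subset (Set.sdiff_subset (t := GTW θ W X))).toFinset with hE
  set E1 : Finset (ℕ × ℕ) := E.filter (fun p => ((p.1 + p.2 : ℕ) : ℝ) ≤ 2 * X) with hE1
  set E2 : Finset (ℕ × ℕ) := E.filter (fun p => ¬ ((p.1 + p.2 : ℕ) : ℝ) ≤ 2 * X) with hE2
  have hEmem : ∀ p ∈ E, p ∈ GT θ X ∧ W < psi3 ∅ p := by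
    intro p hp
    rw [hE, Set.Finite.mem_toFinset] at hp
    obtain ⟨h6, h7⟩ := hp
    refine ⟨h6, ?_⟩
    by_contra hcon
    exact h7 ⟨h6, by omega⟩
  have hEcard : E.card = E1.card + E2.card := by
    rw [hE1, hE2]
    exact (card_filter_add_card_filter_not (s := E)
      (fun p : ℕ × ℕ => ((p.1 + p.2 : ℕ) : ℝ) ≤ 2 * X)).symm
  have hE1c : (E1.card : ℝ) ≤ C * ((W : ℝ) ^ (-(1 / 10) : ℝ) * X ^ ((2 : ℝ) / 3) +
      X ^ (2 / 3 - 1 / 480 : ℝ)) := by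
    have h8 := htail (2 * X) W (by linarith) (by exact_mod_cast hW1) E1 fun p hp => by
      rw [hE1, mem_filter] at hp
      obtain ⟨hp1, hp2⟩ := hp
      obtain ⟨⟨a1, a2, a3, a4⟩, a5⟩ := hEmem p hp1
      refine ⟨a1, a2, a3, ?_, ?_, ?_⟩
      · rw [← rd_eq]
        exact a4.trans (mul_le_mul_of_nonneg_right (hθ2 _) hX0.le)
      · rw [Real.rpow_one]
        exact hp2
      · exact_mod_cast a5.le
    refine h8.trans ?_
    rw [Real.mul_rpow (by norm_num) hX0.le, Real.mul_rpow (by norm_num) hX0.le]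
    have e1 : (2 : ℝ) ^ ((2 : ℝ) / 3) ≤ 2 := by
      calc (2 : ℝ) ^ ((2 : ℝ) / 3) ≤ 2 ^ (1 : ℝ) :=
            Real.rpow_le_rpow_of_exponent_le (by norm_num) (by norm_num)
        _ = 2 := Real.rpow_one _
    have e2 : (2 : ℝ) ^ (2 / 3 - 1 / 480 : ℝ) ≤ 2 := by
      calc (2 : ℝ) ^ (2 / 3 - 1 / 480 : ℝ) ≤ 2 ^ (1 : ℝ) :=
            Real.rpow_le_rpow_of_exponent_le (by norm_num) (by norm_num)
        _ = 2 := Real.rpow_one _
    have e3 : 0 ≤ (W : ℝ) ^ (-(1 / 10) : ℝ) := by positivity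
    have e4 : 0 < X ^ (2 / 3 - 1 / 480 : ℝ) := by positivity
    rw [hC]
    calc C0 * ((W : ℝ) ^ (-(1 / 10) : ℝ) * (2 ^ ((2 : ℝ) / 3) * X ^ ((2 : ℝ) / 3)) +
          2 ^ (2 / 3 - 1 / 480 : ℝ) * X ^ (2 / 3 - 1 / 480 : ℝ)) ≤
        C0 * ((W : ℝ) ^ (-(1 / 10) : ℝ) * (2 * X ^ ((2 : ℝ) / 3)) +
          2 * X ^ (2 / 3 - 1 / 480 : ℝ)) := by
          refine mul_le_mul_of_nonneg_left ?_ hC0.le
          refine add_le_add ?_ ?_
          · exact mul_le_mul_of_nonneg_left (mul_le_mul_of_nonneg_right e1 hXp.le) e3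
          · exact mul_le_mul_of_nonneg_right e2 e4.le
      _ = _ := by ring
  have hE2c : (E2.card : ℝ) ≤ D * X ^ (2 / 3 - ν) := by
    refine le_trans ?_ (hlarge X hX1)
    rw [← Set.ncard_coe_finset]
    refine Nat.cast_le.2 (Set.ncard_le_ncard ?_ ((hfin X).subset fun p hp => hp.1))
    intro p hp
    rw [mem_coe, hE2, mem_filter, not_le] at hp
    exact ⟨(hEmem p hp.1).1, hp.2⟩
  have hcount : ((GT θ X).ncard : ℝ) = (GTW θ W X).ncard + (E1.card + E2.card) := by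
    have h6 : E.card = (GT θ X \ GTW θ W X).ncard := by
      rw [hE, Set.ncard_eq_toFinset_card _ ((hfin X).subset (Set.sdiff_subset (t := GTW θ W X)))]
    have h7 := Set.ncard_sdiff_add_ncard_of_subset hsub (hfin X)
    have : (GT θ X).ncard = (GTW θ W X).ncard + (E1.card + E2.card) := by omega
    exact_mod_cast this
  rw [Real.dist_eq] at hX5
  have e1 : ((GT θ X).ncard : ℝ) / X ^ ((2 : ℝ) / 3) - κ =
      (((GTW θ W X).ncard : ℝ) / X ^ ((2 : ℝ) / 3) - κ) +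
        ((E1.card : ℝ) + E2.card) / X ^ ((2 : ℝ) / 3) := by
    rw [hcount]
    ring
  have e2 : ((E1.card : ℝ) + E2.card) / X ^ ((2 : ℝ) / 3) ≤ ε / 4 + ε / 4 + ε / 4 := by
    rw [div_le_iff₀ hXp]
    have e3 : X ^ (2 / 3 - 1 / 480 : ℝ) = X ^ (-(1 / 480) : ℝ) * X ^ ((2 : ℝ) / 3) := by
      rw [← Real.rpow_add hX0]
      norm_num
    have e4 : X ^ (2 / 3 - ν) = X ^ (-ν) * X ^ ((2 : ℝ) / 3) := by
      rw [← Real.rpow_add hX0]
      congr 1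
      ring
    rw [e3] at hE1c
    rw [e4] at hE2c
    have e5 := mul_le_mul_of_nonneg_right hWe hXp.le
    have e6 := mul_le_mul_of_nonneg_right hX4 hXp.le
    have e7 := mul_le_mul_of_nonneg_right hX4' hXp.le
    nlinarith
  have e4 : 0 ≤ ((E1.card : ℝ) + E2.card) / X ^ ((2 : ℝ) / 3) := by positivity
  rw [e1]
  refine (abs_add_le _ _).trans ?_
  rw [abs_of_nonneg e4]
  linarith

end Pool.Agent.Y680.S
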