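import Pool.Agent.H925R.Szpiro.Semi
import Pool.Agent.TH498.AR.Wt

/-!
# Semistable elliptic curves with full 2-torsion and pairs of coprime integers
-/

set_option autoImplicit false

namespace Pool.Agent.Y680.S

open Finset Pool.Agent.H925R.Szpiro Pool.Agent.TH498.AR

/-- `2 c₆` up to sign -/
def MM (p : ℕ × ℕ) : ℤ := ((p.2 : ℤ) - p.1) * (2 * p.1 + p.2) * (p.1 + 2 * p.2)

/-- the invariant `c₄` -/
def fA (p : ℕ × ℕ) : ℤ := (p.1 : ℤ) ^ 2 + p.1 * p.2 + (p.2 : ℤ) ^ 2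

/-- the invariant `c₆` -/
def fB (p : ℕ × ℕ) : ℤ := if MM p / 2 % 4 = 3 then MM p / 2 else -(MM p / 2)

/-- the invariants attached to a pair -/
def ff (p : ℕ × ℕ) : ℤ × ℤ := (fA p, fB p)

lemma odd_fA {u v : ℕ} (h : Nat.Coprime u v) : ((u : ℤ) ^ 2 + u * v + (v : ℤ) ^ 2) % 2 = 1 := by
  have h1 : ¬ (2 ∣ u ∧ 2 ∣ v) := by
    rintro ⟨h2, h3⟩
    have := Nat.dvd_gcd h2 h3
    rw [h] at this
    omega
  have h2 : (u : ℤ) % 2 = 0 ∨ (u : ℤ) % 2 = 1 := by omega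
  have h3 : (v : ℤ) % 2 = 0 ∨ (v : ℤ) % 2 = 1 := by omega
  rcases h2 with h2 | h2 <;> rcases h3 with h3 | h3
  · exfalso
    exact h1 ⟨by omega, by omega⟩
  all_goals
    rw [pow_two, pow_two, Int.add_emod, Int.add_emod (_ * _) (_ * _), Int.mul_emod,
      Int.mul_emod (u : ℤ) v, Int.mul_emod (v : ℤ) v, h2, h3]
    norm_num

/-- if `c₄` is even then 16 divides it -/
lemma c4_even (W : WeierstrassCurve ℤ) (h : W.c₄ % 2 = 0) : (16 : ℤ) ∣ W.c₄ := by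
  have e1 : W.c₄ = W.b₂ ^ 2 - 24 * W.b₄ := rfl
  have e2 : W.b₂ = W.a₁ ^ 2 + 4 * W.a₂ := rfl
  have e3 : W.b₄ = 2 * W.a₄ + W.a₁ * W.a₃ := rfl
  rcases Int.even_or_odd W.a₁ with ⟨k, hk⟩ | ⟨k, hk⟩
  · rw [e1, e2, e3, hk]
    exact ⟨(k ^ 2 + W.a₂) ^ 2 - 3 * (W.a₄ + k * W.a₃), by ring⟩
  · exfalso
    have h1 : W.c₄ = 2 * (8 * (k ^ 2 + k + W.a₂) ^ 2 + 4 * (k ^ 2 + k + W.a₂) - 12 * W.b₄) + 1 := by
      rw [e1, e2, hk]
      ring
    omega

/-- if `c₄` is odd then `c₆` is `3` modulo 4 -/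
lemma c6_mod (W : WeierstrassCurve ℤ) (h : W.c₄ % 2 = 1) : W.c₆ % 4 = 3 := by
  have e1 : W.c₄ = W.b₂ ^ 2 - 24 * W.b₄ := rfl
  have e2 : W.b₂ = W.a₁ ^ 2 + 4 * W.a₂ := rfl
  have e4 : W.c₆ = -W.b₂ ^ 3 + 36 * W.b₂ * W.b₄ - 216 * W.b₆ := rfl
  rcases Int.even_or_odd W.a₁ with ⟨k, hk⟩ | ⟨k, hk⟩
  · exfalso
    have h1 : W.c₄ = 2 * (8 * (k ^ 2 + W.a₂) ^ 2 - 12 * W.b₄) := by
      rw [e1, e2, hk]
      ring
    omega
  · obtain ⟨s, hs⟩ : ∃ s : ℤ, W.b₂ = 4 * s + 1 := ⟨k ^ 2 + k + W.a₂, by rw [e2, hk]; ring⟩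
    have h2 : W.c₆ = 4 * (-16 * s ^ 3 - 12 * s ^ 2 - 3 * s + 9 * (4 * s + 1) * W.b₄ - 54 * W.b₆ - 1)
        + 3 := by
      rw [e4, hs]
      ring
    omega

/-- the pair attached to a semistable curve with full 2-torsion -/
theorem exists_pair (W : WeierstrassCurve ℤ) (hΔ : W.Δ ≠ 0) (hc : IsCoprime W.c₄ W.Δ)
    (hf : Full W) : ∃ p : ℕ × ℕ, 0 < p.1 ∧ p.1 ≤ p.2 ∧ Nat.Coprime p.1 p.2 ∧
      16 ∣ p.1 * p.2 * (p.1 + p.2) ∧ (W.c₄, W.c₆) = ff p ∧
      256 * W.Δ = (((p.1 * p.2 * (p.1 + p.2) : ℕ)) : ℤ) ^ 2 := by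
  obtain ⟨g, u', v', hg, hu', hv', hcop', E4', ED'⟩ := semi_pair W hΔ hc hf
  have hg1 : g = 1 := by
    rcases hg with h | h
    · exact h
    · exfalso
      have h1 := odd_fA hcop'
      obtain ⟨k, hk⟩ : ∃ k : ℤ, (u' : ℤ) ^ 2 + u' * v' + (v' : ℤ) ^ 2 = k := ⟨_, rfl⟩
      rw [h, hk] at E4'
      rw [hk] at h1
      push_cast at E4'
      have h2 := c4_even W (by omega)
      omega
  rw [hg1] at E4' ED'
  obtain ⟨u, v, hu, hv, huv, hcop, E4, ED⟩ : ∃ u v : ℕ, 0 < u ∧ 0 < v ∧ u ≤ v ∧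
      Nat.Coprime u v ∧ W.c₄ = (u : ℤ) ^ 2 + u * v + (v : ℤ) ^ 2 ∧
      256 * W.Δ = ((u : ℤ) * v * (u + v)) ^ 2 := by
    rcases le_total u' v' with h | h
    · exact ⟨u', v', hu', hv', h, hcop', by rw [E4']; push_cast; ring,
        by rw [ED']; push_cast; ring⟩
    · exact ⟨v', u', hv', hu', h, hcop'.symm, by rw [E4']; push_cast; ring,
        by rw [ED']; push_cast; ring⟩
  have hc4 : W.c₄ % 2 = 1 := by
    rw [E4]
    exact odd_fA hcop
  have h6 := c6_mod W hc4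
  have hrel := W.c_relation
  have hM : (2 * W.c₆) ^ 2 = (MM (u, v)) ^ 2 := by
    have e1 : (2 * W.c₆) ^ 2 = 4 * W.c₄ ^ 3 - 27 * (256 * W.Δ) := by linear_combination 4 * hrel
    rw [e1, E4, ED]
    unfold MM
    push_cast
    ring
  have h16 : 16 ∣ u * v * (u + v) := by
    have h1 : ((16 : ℤ)) ^ 2 ∣ ((u : ℤ) * v * (u + v)) ^ 2 := ⟨W.Δ, by rw [← ED]; norm_num⟩
    have h2 : (16 : ℤ) ∣ (u : ℤ) * v * (u + v) := (Int.pow_dvd_pow_iff (by norm_num)).1 h1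
    exact_mod_cast h2
  refine ⟨(u, v), hu, huv, hcop, h16, ?_, ?_⟩
  · unfold ff
    refine Prod.ext ?_ ?_
    · rw [E4]
      rfl
    · change W.c₆ = fB (u, v)
      unfold fB
      rcases sq_eq_sq_iff_eq_or_eq_neg.1 hM with h | h
      · rw [← h, Int.mul_ediv_cancel_left _ (by norm_num), if_pos h6]
      · have h' : MM (u, v) = 2 * (-W.c₆) := by linarith
        rw [h', Int.mul_ediv_cancel_left _ (by norm_num), if_neg (by omega)]
        ring
  · rw [ED]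
    push_cast
    ring

/-- the curve `y² + x y = x³ + ((B - A - 1) / 4) x² - (A B / 16) x` -/
def Wm (a b : ℤ) : WeierstrassCurve ℤ where
  a₁ := 1
  a₂ := 4 * b - a
  a₃ := 0
  a₄ := -((4 * a - 1) * b)
  a₆ := 0

lemma Wm_c4 (a b : ℤ) : (Wm a b).c₄ = (4 * a - 1) ^ 2 + (4 * a - 1) * (16 * b) + (16 * b) ^ 2 := by
  unfold Wm WeierstrassCurve.c₄ WeierstrassCurve.b₂ WeierstrassCurve.b₄
  ring

lemma Wm_D (a b : ℤ) : 256 * (Wm a b).Δ = ((4 * a - 1) * (16 * b) * (4 * a - 1 + 16 * b)) ^ 2 := by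
  unfold Wm WeierstrassCurve.Δ WeierstrassCurve.b₂ WeierstrassCurve.b₄ WeierstrassCurve.b₆
    WeierstrassCurve.b₈
  ring

lemma Wm_full (a b : ℤ) : Full (Wm a b) := by
  refine ⟨0, -4 * b, (4 * a - 1) / 4, fun x => ?_⟩
  unfold Wm WeierstrassCurve.b₂ WeierstrassCurve.b₄ WeierstrassCurve.b₆
  push_cast
  ring

/-- the curve attached to a pair -/
theorem exists_curve {u v : ℕ} (hu : 0 < u) (hv : 0 < v) (hc : Nat.Coprime u v)
    (h16 : 16 ∣ u * v * (u + v)) : ∃ W : WeierstrassCurve ℤ, W.Δ ≠ 0 ∧ IsCoprime W.c₄ W.Δ ∧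
      Full W ∧ W.c₄ = (u : ℤ) ^ 2 + u * v + (v : ℤ) ^ 2 ∧
      256 * W.Δ = (((u * v * (u + v) : ℕ)) : ℤ) ^ 2 := by
  -- the choice of `A` and `B`
  obtain ⟨A, B, hA, hB, e4, eD⟩ : ∃ A B : ℤ, A % 4 = 3 ∧ (16 : ℤ) ∣ B ∧
      A ^ 2 + A * B + B ^ 2 = (u : ℤ) ^ 2 + u * v + (v : ℤ) ^ 2 ∧
      (A * B * (A + B)) ^ 2 = (((u * v * (u + v) : ℕ)) : ℤ) ^ 2 := by
    have hcs : Nat.Coprime (u * v) (u + v) := by
      refine Nat.Coprime.mul_left ?_ ?_
      · rw [Nat.coprime_self_add_right]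
        exact hc
      · rw [Nat.coprime_add_self_right]
        exact hc.symm
    have hp16 : (16 : ℕ) = 2 ^ 4 := by norm_num
    have key : 16 ∣ u ∨ 16 ∣ v ∨ 16 ∣ u + v := by
      have split : ∀ a b : ℕ, Nat.Coprime a b → 2 ^ 4 ∣ a * b → 2 ^ 4 ∣ a ∨ 2 ^ 4 ∣ b := by
        intro a b hab h
        by_cases h2 : 2 ∣ a
        · left
          have : Nat.Coprime (2 ^ 4) b := by
            refine Nat.Coprime.pow_left 4 ?_
            exact Nat.Coprime.coprime_dvd_left h2 hab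
          exact this.dvd_of_dvd_mul_right h
        · right
          have : Nat.Coprime (2 ^ 4) a :=
            Nat.Coprime.pow_left 4 ((Nat.Prime.coprime_iff_not_dvd Nat.prime_two).2 h2)
          exact this.dvd_of_dvd_mul_left h
      rw [hp16] at h16 ⊢
      rcases split _ _ hcs h16 with h | h
      · rcases split _ _ hc h with h' | h'
        · exact Or.inl h'
        · exact Or.inr (Or.inl h')
      · exact Or.inr (Or.inr h)
    have hodd : ∀ a b : ℕ, Nat.Coprime a b → 16 ∣ b → (a : ℤ) % 4 = 1 ∨ (a : ℤ) % 4 = 3 := by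
      intro a b hab h
      have h2 : ¬ 2 ∣ a := by
        intro h2
        have := Nat.dvd_gcd h2 (dvd_trans (by norm_num : 2 ∣ 16) h)
        rw [hab] at this
        omega
      omega
    rcases key with h | h | h
    · have h' : (16 : ℤ) ∣ (u : ℤ) := by exact_mod_cast h
      rcases hodd v u hc.symm h with h3 | h3
      · exact ⟨-v, -u, by omega, (dvd_neg).2 h', by ring, by push_cast; ring⟩
      · exact ⟨v, u, by omega, h', by ring, by push_cast; ring⟩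
    · have h' : (16 : ℤ) ∣ (v : ℤ) := by exact_mod_cast h
      rcases hodd u v hc h with h3 | h3
      · exact ⟨-u, -v, by omega, (dvd_neg).2 h', by ring, by push_cast; ring⟩
      · exact ⟨u, v, by omega, h', by ring, by push_cast; ring⟩
    · have h' : (16 : ℤ) ∣ (u : ℤ) + v := by exact_mod_cast h
      have hc' : Nat.Coprime u (u + v) := by
        rw [Nat.coprime_self_add_right]
        exact hc
      rcases hodd u (u + v) hc' h with h3 | h3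
      · exact ⟨-u, (u : ℤ) + v, by omega, h', by ring, by push_cast; ring⟩
      · exact ⟨u, -((u : ℤ) + v), by omega, (dvd_neg).2 h', by ring, by push_cast; ring⟩
  obtain ⟨a, ha⟩ : ∃ a : ℤ, A = 4 * a - 1 := ⟨(A + 1) / 4, by omega⟩
  obtain ⟨b, hb⟩ := hB
  have E4 : (Wm a b).c₄ = (u : ℤ) ^ 2 + u * v + (v : ℤ) ^ 2 := by
    rw [Wm_c4, ← ha, ← hb, e4]
  have ED : 256 * (Wm a b).Δ = (((u * v * (u + v) : ℕ)) : ℤ) ^ 2 := by
    rw [Wm_D, ← ha, ← hb, eD]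
  have hn : 0 < u * v * (u + v) := by positivity
  have hn' : (0 : ℤ) < ((u * v * (u + v) : ℕ) : ℤ) := by exact_mod_cast hn
  refine ⟨Wm a b, ?_, ?_, Wm_full a b, E4, ED⟩
  · intro h0
    rw [h0] at ED
    have : (0 : ℤ) < (((u * v * (u + v) : ℕ)) : ℤ) ^ 2 := by positivity
    linarith
  · rw [Int.isCoprime_iff_nat_coprime]
    refine Nat.coprime_of_dvd fun q hq h1 h2 => ?_
    have h1' : (q : ℤ) ∣ (Wm a b).c₄ := Int.natCast_dvd.2 h1
    have h2' : (q : ℤ) ∣ (Wm a b).Δ := Int.natCast_dvd.2 h2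
    have h3 : (q : ℤ) ∣ (((u * v * (u + v) : ℕ)) : ℤ) ^ 2 := by
      rw [← ED]
      exact h2'.mul_left _
    have hqp : Prime (q : ℤ) := Nat.prime_iff_prime_int.1 hq
    have h4 : (q : ℤ) ∣ (((u * v * (u + v) : ℕ)) : ℤ) := hqp.dvd_of_dvd_pow h3
    have h5 : q ∣ u * v * (u + v) := by exact_mod_cast h4
    have hcu : ¬ (q ∣ u ∧ q ∣ v) := by
      rintro ⟨a1, a2⟩
      have := Nat.dvd_gcd a1 a2
      rw [hc] at this
      exact hq.one_lt.ne' (Nat.dvd_one.1 this)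
    rw [E4] at h1'
    rcases (Nat.Prime.dvd_mul hq).1 h5 with h6 | h6
    · rcases (Nat.Prime.dvd_mul hq).1 h6 with h7 | h7
      · have h7' : (q : ℤ) ∣ (u : ℤ) := by exact_mod_cast h7
        have : (q : ℤ) ∣ (v : ℤ) ^ 2 := by
          have e : (v : ℤ) ^ 2 = ((u : ℤ) ^ 2 + u * v + (v : ℤ) ^ 2) - u * (u + v) := by ring
          rw [e]
          exact dvd_sub h1' (h7'.mul_right _)
        exact hcu ⟨h7, by exact_mod_cast hqp.dvd_of_dvd_pow this⟩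
      · have h7' : (q : ℤ) ∣ (v : ℤ) := by exact_mod_cast h7
        have : (q : ℤ) ∣ (u : ℤ) ^ 2 := by
          have e : (u : ℤ) ^ 2 = ((u : ℤ) ^ 2 + u * v + (v : ℤ) ^ 2) - v * (u + v) := by ring
          rw [e]
          exact dvd_sub h1' (h7'.mul_right _)
        exact hcu ⟨by exact_mod_cast hqp.dvd_of_dvd_pow this, h7⟩
    · have h7' : (q : ℤ) ∣ (u : ℤ) + v := by exact_mod_cast h6
      have : (q : ℤ) ∣ (u : ℤ) ^ 2 := by
        have e : (u : ℤ) ^ 2 = ((u : ℤ) ^ 2 + u * v + (v : ℤ) ^ 2) - v * (u + v) := by ring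
        rw [e]
        exact dvd_sub h1' (h7'.mul_left _)
      have hqu : q ∣ u := by exact_mod_cast hqp.dvd_of_dvd_pow this
      exact hcu ⟨hqu, (Nat.dvd_add_right hqu).1 h6⟩

/-- the pair is determined by the invariants -/
theorem ff_inj {p p' : ℕ × ℕ} (h0 : 0 < p.1) (h : p.1 ≤ p.2) (h0' : 0 < p'.1) (h' : p'.1 ≤ p'.2)
    (e4 : fA p = fA p') (eD : p.1 * p.2 * (p.1 + p.2) = p'.1 * p'.2 * (p'.1 + p'.2)) : p = p' := by
  obtain ⟨u, v⟩ := p
  obtain ⟨u', v'⟩ := p'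
  simp only at h0 h h0' h' eD
  unfold fA at e4
  simp only at e4
  have eD' : (u : ℤ) * v * (u + v) = u' * v' * (u' + v') := by exact_mod_cast eD
  have hu : (0 : ℤ) < u := by exact_mod_cast h0
  have hv : (0 : ℤ) < v := by exact_mod_cast (by omega : 0 < v)
  have hu' : (0 : ℤ) < u' := by exact_mod_cast h0'
  have hv' : (0 : ℤ) < v' := by exact_mod_cast (by omega : 0 < v')
  have hs : ((u' + v' : ℤ) - (u + v)) * ((u' + v' + u) * (u' + v' + v)) = 0 := by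
    linear_combination (-(u' + v' : ℤ)) * e4 - eD'
  have hs' : (u' + v' : ℤ) - (u + v) = 0 := by
    rcases mul_eq_zero.1 hs with h1 | h1
    · exact h1
    · exfalso
      have : (0 : ℤ) < (u' + v' + u) * (u' + v' + v) := by positivity
      linarith
  have hp : (u : ℤ) * v = u' * v' := by
    have h1 : (u : ℤ) + v = u' + v' := by linarith
    rw [h1] at eD'
    exact mul_right_cancel₀ (by positivity : ((u' : ℤ) + v') ≠ 0) eD'
  have hr : ((u : ℤ) - u') * (u - v') = 0 := by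
    have h1 : (u' : ℤ) + v' = u + v := by linarith
    linear_combination (-(u : ℤ)) * h1 - hp
  rcases mul_eq_zero.1 hr with h1 | h1
  · have : (v : ℤ) = v' := by linarith
    exact Prod.ext (by simpa using by omega) (by simpa using by omega)
  · have e1 : (v : ℤ) = u' := by linarith
    refine Prod.ext ?_ ?_
    · simp only
      omega
    · simp only
      omega

end Pool.Agent.Y680.S
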