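import Pool.Agent.Y911.AA.Main
import Pool.Agent.TH867.EC.Heights
import Pool.Agent.Y680.S.Asy
import Pool.Agent.Y680.S.Bij

/-!
# All semistable elliptic curves with full 2-torsion, ordered by conductor
-/

set_option autoImplicit false

namespace Pool.Agent.Y680.S

open Finset Filter Topology Pool.Agent.H925R.Szpiro Pool.Agent.TH498.AR
  Pool.Agent.Results.MP_1ea25c_nt.AlmostAllTriples

/-- the weight: 1 for `32 ∣ abc`, 2 for `16 ∣ abc` otherwise -/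
noncomputable def th (w : ℕ) : ℝ := if 16 ∣ w then 1 else if 8 ∣ w then 2 else 0

lemma th_nonneg (w : ℕ) : 0 ≤ th w := by
  unfold th
  split_ifs <;> norm_num

lemma th_le (w : ℕ) : th w ≤ 2 := by
  unfold th
  split_ifs <;> norm_num

lemma rd_two {k : ℕ} (hk : 0 < k) (h : 2 ∣ k) : ∃ m : ℕ, rd k = 2 * m ∧ Nat.Coprime 2 m := by
  have h2 : 2 ∈ k.primeFactors := Nat.mem_primeFactors.2 ⟨Nat.prime_two, h, hk.ne'⟩
  refine ⟨∏ p ∈ k.primeFactors.erase 2, p, ?_, ?_⟩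
  · unfold rd
    exact (Finset.mul_prod_erase k.primeFactors (fun p => p) h2).symm
  · refine Nat.Coprime.prod_right fun q hq => ?_
    rw [Finset.mem_erase] at hq
    exact (Nat.coprime_primes Nat.prime_two (Nat.prime_of_mem_primeFactors hq.2)).2 (Ne.symm hq.1)

lemma rd_16_even {k : ℕ} (hk : 0 < k) (h : 2 ∣ k) : rd (16 * k) = rd k := by
  unfold rd
  rw [Nat.primeFactors_mul (by norm_num) hk.ne', show (16 : ℕ) = 2 ^ 4 by norm_num,
    Nat.primeFactors_prime_pow (by norm_num) Nat.prime_two, Finset.union_eq_right.2]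
  rw [Finset.singleton_subset_iff]
  exact Nat.mem_primeFactors.2 ⟨Nat.prime_two, h, hk.ne'⟩

lemma rd_16_odd {k : ℕ} (hk : 0 < k) (h : ¬ 2 ∣ k) : rd (16 * k) = 2 * rd k := by
  unfold rd
  rw [Nat.primeFactors_mul (by norm_num) hk.ne', show (16 : ℕ) = 2 ^ 4 by norm_num,
    Nat.primeFactors_prime_pow (by norm_num) Nat.prime_two,
    Finset.prod_union, Finset.prod_singleton]
  rw [Finset.disjoint_singleton_left]
  exact fun h2 => h (Nat.dvd_of_mem_primeFactors h2)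

/-- the repeated part and the prime 2 -/
lemma psi_two {w k : ℕ} (hk : 0 < k) (h : w * rd (16 * k) = 16 * k) :
    (2 ∣ k → 16 ∣ w) ∧ (¬ 2 ∣ k → 8 ∣ w ∧ ¬ 16 ∣ w) := by
  constructor
  · intro h2
    rw [rd_16_even hk h2] at h
    obtain ⟨m, hm, hm2⟩ := rd_two hk h2
    obtain ⟨l, hl⟩ := h2
    rw [hm] at h
    have h3 : w * m = 16 * l := by
      have : 2 * (w * m) = 2 * (16 * l) := by rw [hl] at h; linarith
      omega
    have h4 : Nat.Coprime 16 m := by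
      rw [show (16 : ℕ) = 2 ^ 4 by norm_num]
      exact Nat.Coprime.pow_left 4 hm2
    exact h4.dvd_of_dvd_mul_right ⟨l, h3⟩
  · intro h2
    rw [rd_16_odd hk h2] at h
    have h3 : w * rd k = 8 * k := by
      have : 2 * (w * rd k) = 2 * (8 * k) := by linarith
      omega
    have hodd : Nat.Coprime 2 (rd k) := by
      rw [Nat.Prime.coprime_iff_not_dvd Nat.prime_two]
      intro h4
      exact h2 (h4.trans (Nat.prod_primeFactors_dvd k))
    constructor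
    · have h4 : Nat.Coprime 8 (rd k) := by
        rw [show (8 : ℕ) = 2 ^ 3 by norm_num]
        exact Nat.Coprime.pow_left 3 hodd
      exact h4.dvd_of_dvd_mul_right ⟨k, h3⟩
    · rintro ⟨l, hl⟩
      rw [hl] at h3
      exact h2 ⟨l * rd k, by linarith⟩

lemma psi_eq {p : ℕ × ℕ} (hc : Nat.Coprime p.1 p.2) :
    psi3 ∅ p * rd (p.1 * p.2 * (p.1 + p.2)) = p.1 * p.2 * (p.1 + p.2) := by
  have h := coprime3 (P := ∅) hc
  rw [← rd_eq] at h
  exact h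

/-- the conductor in terms of the pair -/
lemma cond_iff {W : WeierstrassCurve ℤ} {p : ℕ × ℕ} (h1 : 0 < p.1) (h2 : 0 < p.2)
    (hc : Nat.Coprime p.1 p.2) (h16 : 16 ∣ p.1 * p.2 * (p.1 + p.2))
    (hD : 256 * W.Δ = (((p.1 * p.2 * (p.1 + p.2) : ℕ)) : ℤ) ^ 2) (X : ℝ) :
    (cond W : ℝ) ≤ X ↔ (rd (p.1 * p.2 * (p.1 + p.2)) : ℝ) ≤ th (psi3 ∅ p) * X := by
  have hn : 0 < p.1 * p.2 * (p.1 + p.2) := by positivity
  have hpsi := psi_eq hc
  obtain ⟨k, hk⟩ := h16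
  rw [hk] at hD hn hpsi ⊢
  have hk0 : 0 < k := by omega
  have hΔ : W.Δ = (k : ℤ) ^ 2 := by
    have : 256 * W.Δ = 256 * (k : ℤ) ^ 2 := by rw [hD]; push_cast; ring
    linarith
  have hcond : cond W = rd k := by
    unfold Pool.Agent.H925R.Szpiro.cond rd
    rw [hΔ, Int.natAbs_pow, Int.natAbs_natCast, Nat.primeFactors_pow _ (by norm_num)]
  rw [hcond]
  obtain ⟨a, b⟩ := psi_two hk0 hpsi
  unfold th
  by_cases h : 2 ∣ k
  · rw [if_pos (a h), rd_16_even hk0 h, one_mul]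
  · rw [if_neg (b h).2, if_pos (b h).1, rd_16_odd hk0 h]
    push_cast
    constructor <;> intro <;> linarith

/-- 16 divides `a b (a + b)` when the weight is positive -/
lemma dvd_of_th {p : ℕ × ℕ} (hc : Nat.Coprime p.1 p.2) (h : 0 < th (psi3 ∅ p)) :
    16 ∣ p.1 * p.2 * (p.1 + p.2) := by
  have h8 : 8 ∣ psi3 ∅ p := by
    unfold th at h
    split_ifs at h with h1 h2
    · exact dvd_trans (by norm_num) h1
    · exact h2
    · exact absurd h (lt_irrefl 0)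
  have hev : 2 ∣ p.1 * p.2 * (p.1 + p.2) := by
    rcases Nat.even_or_odd p.1 with h1 | h1
    · exact (h1.two_dvd.mul_right _).mul_right _
    · rcases Nat.even_or_odd p.2 with h2 | h2
      · exact (h2.two_dvd.mul_left _).mul_right _
      · exact (h1.add_odd h2).two_dvd.mul_left _
  rcases Nat.eq_zero_or_pos (p.1 * p.2 * (p.1 + p.2)) with h0 | h0
  · rw [h0]
    exact dvd_zero _
  · obtain ⟨m, hm, -⟩ := rd_two h0 hev
    rw [← psi_eq hc, hm]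
    obtain ⟨l, hl⟩ := h8
    rw [hl]
    exact ⟨l * m, by ring⟩

/-- the invariants of all semistable curves with full 2-torsion and conductor at most `X` -/
def SC (X : ℝ) : Set (ℤ × ℤ) :=
  {q | ∃ W : WeierstrassCurve ℤ, W.Δ ≠ 0 ∧ IsCoprime W.c₄ W.Δ ∧ Full W ∧ q = (W.c₄, W.c₆) ∧
    (cond W : ℝ) ≤ X}

/-- the curve of a pair -/
theorem curve_of {p : ℕ × ℕ} (h1 : 0 < p.1) (h2 : p.1 ≤ p.2) (hc : Nat.Coprime p.1 p.2)
    (h16 : 16 ∣ p.1 * p.2 * (p.1 + p.2)) : ∃ W : WeierstrassCurve ℤ, W.Δ ≠ 0 ∧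
      IsCoprime W.c₄ W.Δ ∧ Full W ∧ (W.c₄, W.c₆) = ff p ∧
      256 * W.Δ = (((p.1 * p.2 * (p.1 + p.2) : ℕ)) : ℤ) ^ 2 := by
  obtain ⟨W, w1, w2, w3, w4, w5⟩ := exists_curve h1 (by omega : 0 < p.2) hc h16
  obtain ⟨p', a1, a2, -, -, a5, a6⟩ := exists_pair W w1 w2 w3
  have e4 : fA p' = fA p := by
    have := congrArg Prod.fst a5
    simp only [ff] at this
    rw [← this, w4]
    rfl
  have e5 : (((p'.1 * p'.2 * (p'.1 + p'.2) : ℕ)) : ℤ) ^ 2 =
      (((p.1 * p.2 * (p.1 + p.2) : ℕ)) : ℤ) ^ 2 := a6.symm.trans w5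
  have e6 : p'.1 * p'.2 * (p'.1 + p'.2) = p.1 * p.2 * (p.1 + p.2) := by
    have := (sq_eq_sq₀ (by positivity) (by positivity)).1 e5
    exact_mod_cast this
  have : p' = p := ff_inj a1 a2 h1 h2 e4 e6
  rw [this] at a5
  exact ⟨W, w1, w2, w3, a5, w5⟩

theorem SC_eq (X : ℝ) : SC X = ff '' GT th X := by
  ext q
  constructor
  · rintro ⟨W, w1, w2, w3, rfl, w5⟩
    obtain ⟨p, a1, a2, a3, a4, a5, a6⟩ := exists_pair W w1 w2 w3
    refine ⟨p, ⟨a1, a2, a3, ?_⟩, a5.symm⟩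
    exact (cond_iff a1 (by omega) a3 a4 a6 X).1 w5
  · rintro ⟨p, hp, rfl⟩
    have h0 := theta_pos th_nonneg hp
    obtain ⟨a1, a2, a3, a4⟩ := hp
    have h16 := dvd_of_th a3 h0
    obtain ⟨W, w1, w2, w3, w4, w5⟩ := curve_of a1 a2 a3 h16
    exact ⟨W, w1, w2, w3, w4.symm, (cond_iff a1 (by omega) a3 h16 w5 X).2 a4⟩

theorem ff_injOn (X : ℝ) : Set.InjOn ff (GT th X) := by
  intro p hp p' hp' he
  have h0 := theta_pos th_nonneg hp
  have h0' := theta_pos th_nonneg hp'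
  obtain ⟨a1, a2, a3, -⟩ := hp
  obtain ⟨b1, b2, b3, -⟩ := hp'
  obtain ⟨W, -, -, -, w4, w5⟩ := curve_of a1 a2 a3 (dvd_of_th a3 h0)
  obtain ⟨W', -, -, -, w4', w5'⟩ := curve_of b1 b2 b3 (dvd_of_th b3 h0')
  rw [he, ← w4'] at w4
  have c4 : W.c₄ = W'.c₄ := congrArg Prod.fst w4
  have c6 : W.c₆ = W'.c₆ := congrArg Prod.snd w4
  have hD : W.Δ = W'.Δ := by
    have h1 := W.c_relation
    have h2 := W'.c_relation
    rw [c4, c6, ← h2] at h1
    linarith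
  rw [hD, w5'] at w5
  have e6 : p'.1 * p'.2 * (p'.1 + p'.2) = p.1 * p.2 * (p.1 + p.2) := by
    have := (sq_eq_sq₀ (by positivity) (by positivity)).1 w5
    exact_mod_cast this
  exact ff_inj a1 a2 b1 b2 (congrArg Prod.fst he) e6.symm

lemma rd_rad3 (p : ℕ × ℕ) : rd (p.1 * p.2 * (p.1 + p.2)) = rad3 p := rfl

lemma GT_sub {X : ℝ} (hX : 0 ≤ X) : GT th X ⊆ triples (2 * X) := by
  rintro p ⟨a1, a2, a3, a4⟩
  refine ⟨a1, a2, a3, ?_⟩
  rw [← rd_rad3]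
  exact a4.trans (mul_le_mul_of_nonneg_right (th_le _) hX)

theorem GT_finite (X : ℝ) : (GT th X).Finite := by
  rcases le_or_gt 0 X with h | h
  · exact (Pool.Agent.Y911.AA.triples_finite' (2 * X)).subset (GT_sub h)
  · have : GT th X = ∅ := by
      rw [Set.eq_empty_iff_forall_notMem]
      rintro p ⟨-, -, -, a4⟩
      have h1 := rd_pos' (p.1 * p.2 * (p.1 + p.2))
      have h2 : th (psi3 ∅ p) * X ≤ 0 := mul_nonpos_of_nonneg_of_nonpos (th_nonneg _) h.le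
      linarith
    rw [this]
    exact Set.finite_empty

/-- **The number of the curves.** -/
theorem main_asy : ∃ κ : ℝ, 0 < κ ∧
    Tendsto (fun X : ℝ => ((SC X).ncard : ℝ) / X ^ ((2 : ℝ) / 3)) atTop (𝓝 κ) := by
  obtain ⟨ν, C, hν, hν2, hC, hsav⟩ := Pool.Agent.Y911.AA.saving (ε := 1 / 6) (by norm_num)
  have hcard : ∀ X, (SC X).ncard = (GT th X).ncard := by
    intro X
    rw [SC_eq]
    exact (ff_injOn X).ncard_image
  obtain ⟨κ, hκ⟩ := GT_limit th th_nonneg th_le GT_finite (ν := ν) (D := C * 2) hν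
    (by positivity) fun X hX => by
      have h1 := hsav (2 * X) (by linarith)
      have hsub : {p | p ∈ GT th X ∧ 2 * X < ((p.1 + p.2 : ℕ) : ℝ)} ⊆
          Pool.Agent.Y911.AA.viol (1 / 3 + 1 / 6) (2 * X) := by
        rintro p ⟨hp, hc⟩
        have hp' := GT_sub (by linarith) hp
        refine ⟨hp', ?_⟩
        have h2 : (rad3 p : ℝ) ≤ 2 * X := hp'.2.2.2
        have h3 : (1 : ℝ) ≤ rad3 p := rd_pos' _
        calc (rad3 p : ℝ) ^ (1 / 3 + 1 / 6 : ℝ) ≤ (rad3 p : ℝ) ^ (1 : ℝ) :=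
              Real.rpow_le_rpow_of_exponent_le h3 (by norm_num)
          _ = rad3 p := Real.rpow_one _
          _ ≤ ((p.1 + p.2 : ℕ) : ℝ) := by linarith
      have hfin : (Pool.Agent.Y911.AA.viol (1 / 3 + 1 / 6) (2 * X)).Finite :=
        (Pool.Agent.Y911.AA.triples_finite' (2 * X)).subset fun p hp => hp.1
      refine (Nat.cast_le.2 (Set.ncard_le_ncard hsub hfin)).trans (h1.trans ?_)
      have hX0 : 0 < X := by linarith
      rw [Real.mul_rpow (by norm_num) hX0.le]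
      have e1 : (2 : ℝ) ^ (2 / 3 - ν) ≤ 2 := by
        calc (2 : ℝ) ^ (2 / 3 - ν) ≤ 2 ^ (1 : ℝ) :=
              Real.rpow_le_rpow_of_exponent_le (by norm_num) (by linarith)
          _ = 2 := Real.rpow_one _
      have e2 : 0 ≤ X ^ (2 / 3 - ν) := by positivity
      calc C * (2 ^ (2 / 3 - ν) * X ^ (2 / 3 - ν)) ≤ C * (2 * X ^ (2 / 3 - ν)) :=
            mul_le_mul_of_nonneg_left (mul_le_mul_of_nonneg_right e1 e2) hC.le
        _ = _ := by ring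
  have hκ' : Tendsto (fun X : ℝ => ((SC X).ncard : ℝ) / X ^ ((2 : ℝ) / 3)) atTop (𝓝 κ) := by
    refine hκ.congr fun X => ?_
    rw [hcard]
  refine ⟨κ, ?_, hκ'⟩
  -- positivity
  have hfin : ∀ X, (SC X).Finite := by
    intro X
    rw [SC_eq]
    exact (GT_finite X).image _
  have hlow : ∀ᶠ X : ℝ in atTop, (1 / 200 : ℝ) ≤ ((SC X).ncard : ℝ) / X ^ ((2 : ℝ) / 3) := by
    filter_upwards [eventually_ge_atTop (80 : ℝ)] with X hX
    have hXp : 0 < X ^ ((2 : ℝ) / 3) := by positivity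
    rw [le_div_iff₀ hXp]
    refine (Pool.Agent.TH867.EC.cur_lower X (2 * Real.log X) hX le_rfl).trans ?_
    have : (Pool.Agent.TH867.EC.Cur X (2 * Real.log X)).ncard ≤ (SC X).ncard := by
      refine Set.ncard_le_ncard ?_ (hfin X)
      rintro q ⟨W, h1, h2, h3, h4, h5, -⟩
      exact ⟨W, h1, h2, h3, h4, h5⟩
    exact_mod_cast this
  have := ge_of_tendsto hκ' hlow
  linarith

/-- **The exceptions.** -/
theorem main_exc (δ : ℝ) (hδ : 0 < δ) : ∃ η C : ℝ, 0 < η ∧ 0 < C ∧ ∀ X : ℝ, 1 ≤ X →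
    ((({q | ∃ W : WeierstrassCurve ℤ, W.Δ ≠ 0 ∧ IsCoprime W.c₄ W.Δ ∧ Full W ∧
      q = (W.c₄, W.c₆) ∧ (cond W : ℝ) ≤ X ∧ (cond W : ℝ) ^ (2 + δ) < |(W.Δ : ℝ)|} :
        Set (ℤ × ℤ)).ncard : ℕ) : ℝ) ≤ C * X ^ (2 / 3 - η) := by
  obtain ⟨e, he⟩ : ∃ e : ℝ, e = min δ 1 := ⟨_, rfl⟩
  have he0 : 0 < e := by rw [he]; exact lt_min hδ one_pos
  have he1 : e ≤ 1 := by rw [he]; exact min_le_right _ _
  have heδ : e ≤ δ := by rw [he]; exact min_le_left _ _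
  obtain ⟨ν, C, hν, hν2, hC, hsav⟩ := Pool.Agent.Y911.AA.saving (ε := e / 6) (by positivity)
  refine ⟨ν, C * 2, hν, by positivity, fun X hX => ?_⟩
  have hX0 : 0 < X := by linarith
  have h1 := hsav (2 * X) (by linarith)
  have hfin : (Pool.Agent.Y911.AA.viol (1 / 3 + e / 6) (2 * X)).Finite :=
    (Pool.Agent.Y911.AA.triples_finite' (2 * X)).subset fun p hp => hp.1
  have hsub : ({q | ∃ W : WeierstrassCurve ℤ, W.Δ ≠ 0 ∧ IsCoprime W.c₄ W.Δ ∧ Full W ∧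
      q = (W.c₄, W.c₆) ∧ (cond W : ℝ) ≤ X ∧ (cond W : ℝ) ^ (2 + δ) < |(W.Δ : ℝ)|} :
        Set (ℤ × ℤ)) ⊆ ff '' Pool.Agent.Y911.AA.viol (1 / 3 + e / 6) (2 * X) := by
    rintro q ⟨W, w1, w2, w3, rfl, w5, w6⟩
    obtain ⟨p, a1, a2, a3, a4, a5, a6⟩ := exists_pair W w1 w2 w3
    have hp : p ∈ GT th X := ⟨a1, a2, a3, (cond_iff a1 (by omega) a3 a4 a6 X).1 w5⟩
    have hp' := GT_sub hX0.le hp
    refine ⟨p, ⟨hp', ?_⟩, a5.symm⟩
    by_contra hcon
    rw [not_le] at hcon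
    obtain ⟨c, hc⟩ : ∃ c : ℝ, c = ((p.1 + p.2 : ℕ) : ℝ) := ⟨_, rfl⟩
    have b1 : (1 : ℝ) ≤ p.1 := by exact_mod_cast a1
    have b2 : (p.1 : ℝ) ≤ p.2 := by exact_mod_cast a2
    have hc2 : 2 ≤ c := by rw [hc]; push_cast; linarith
    rw [← hc] at hcon
    -- the discriminant
    have hD : 256 * (W.Δ : ℝ) = ((p.1 : ℝ) * p.2 * (p.1 + p.2)) ^ 2 := by
      have := a6
      exact_mod_cast this
    have hD0 : 0 ≤ (W.Δ : ℝ) := by
      have : 0 ≤ ((p.1 : ℝ) * p.2 * (p.1 + p.2)) ^ 2 := sq_nonneg _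
      linarith
    have hD1 : (W.Δ : ℝ) ≤ c ^ 6 / 4096 := by
      have h2 : (p.1 : ℝ) * p.2 ≤ c ^ 2 / 4 := by
        rw [hc]
        push_cast
        nlinarith [sq_nonneg ((p.1 : ℝ) - p.2)]
      have h3 : (p.1 : ℝ) * p.2 * (p.1 + p.2) ≤ c ^ 2 / 4 * c := by
        refine mul_le_mul h2 ?_ (by positivity) (by positivity)
        rw [hc]
        push_cast
        exact le_rfl
      have h4 : ((p.1 : ℝ) * p.2 * (p.1 + p.2)) ^ 2 ≤ (c ^ 2 / 4 * c) ^ 2 :=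
        pow_le_pow_left₀ (by positivity) h3 2
      nlinarith
    -- the radical and the conductor
    have hr : (rad3 p : ℝ) ≤ 2 * cond W := by
      have h2 := (cond_iff a1 (by omega) a3 a4 a6 (cond W : ℝ)).1 le_rfl
      refine le_trans ?_ (mul_le_mul_of_nonneg_right (th_le (psi3 ∅ p)) (Nat.cast_nonneg _))
      exact h2
    have hr1 : (1 : ℝ) ≤ rad3 p := rd_pos' _
    have hN1 : (1 : ℝ) ≤ cond W := rd_pos' _
    have h5 : c ^ 6 ≤ (rad3 p : ℝ) ^ (2 + e : ℝ) := by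
      have h6 : c ^ 6 ≤ ((rad3 p : ℝ) ^ (1 / 3 + e / 6 : ℝ)) ^ 6 :=
        pow_le_pow_left₀ (by linarith) hcon.le 6
      have h7 : ((rad3 p : ℝ) ^ (1 / 3 + e / 6 : ℝ)) ^ 6 = (rad3 p : ℝ) ^ (2 + e : ℝ) := by
        rw [← Real.rpow_natCast ((rad3 p : ℝ) ^ (1 / 3 + e / 6 : ℝ)) 6,
          ← Real.rpow_mul (by positivity)]
        congr 1
        push_cast
        ring
      rw [h7] at h6
      exact h6
    have h8 : (rad3 p : ℝ) ^ (2 + e : ℝ) ≤ 8 * (cond W : ℝ) ^ (2 + e : ℝ) := by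
      calc (rad3 p : ℝ) ^ (2 + e : ℝ) ≤ (2 * (cond W : ℝ)) ^ (2 + e : ℝ) :=
            Real.rpow_le_rpow (by positivity) hr (by linarith)
        _ = 2 ^ (2 + e : ℝ) * (cond W : ℝ) ^ (2 + e : ℝ) := Real.mul_rpow (by norm_num)
            (by positivity)
        _ ≤ 2 ^ (3 : ℝ) * (cond W : ℝ) ^ (2 + e : ℝ) := by
            refine mul_le_mul_of_nonneg_right ?_ (by positivity)
            exact Real.rpow_le_rpow_of_exponent_le (by norm_num) (by linarith)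
        _ = _ := by norm_num
    have h9 : (cond W : ℝ) ^ (2 + e : ℝ) ≤ (cond W : ℝ) ^ (2 + δ : ℝ) :=
      Real.rpow_le_rpow_of_exponent_le hN1 (by linarith)
    have h10 : 0 < (cond W : ℝ) ^ (2 + e : ℝ) := by positivity
    rw [abs_of_nonneg hD0] at w6
    linarith
  have h2 : (({q | ∃ W : WeierstrassCurve ℤ, W.Δ ≠ 0 ∧ IsCoprime W.c₄ W.Δ ∧ Full W ∧
      q = (W.c₄, W.c₆) ∧ (cond W : ℝ) ≤ X ∧ (cond W : ℝ) ^ (2 + δ) < |(W.Δ : ℝ)|} :
        Set (ℤ × ℤ)).ncard : ℕ) ≤ (Pool.Agent.Y911.AA.viol (1 / 3 + e / 6) (2 * X)).ncard :=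
    (Set.ncard_le_ncard hsub (hfin.image _)).trans (Set.ncard_image_le hfin)
  refine (Nat.cast_le.2 h2).trans (h1.trans ?_)
  rw [Real.mul_rpow (by norm_num) hX0.le]
  have e1 : (2 : ℝ) ^ (2 / 3 - ν) ≤ 2 := by
    calc (2 : ℝ) ^ (2 / 3 - ν) ≤ 2 ^ (1 : ℝ) :=
          Real.rpow_le_rpow_of_exponent_le (by norm_num) (by linarith)
      _ = 2 := Real.rpow_one _
  have e2 : 0 ≤ X ^ (2 / 3 - ν) := by positivity
  calc C * (2 ^ (2 / 3 - ν) * X ^ (2 / 3 - ν)) ≤ C * (2 * X ^ (2 / 3 - ν)) :=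
        mul_le_mul_of_nonneg_left (mul_le_mul_of_nonneg_right e1 e2) hC.le
    _ = _ := by ring

/-- the discriminant is at least the square of the conductor -/
theorem disc_ge {W : WeierstrassCurve ℤ} (w1 : W.Δ ≠ 0) (w2 : IsCoprime W.c₄ W.Δ) (w3 : Full W) :
    (cond W : ℝ) ^ 2 ≤ |(W.Δ : ℝ)| := by
  obtain ⟨p, a1, a2, a3, ⟨k, hk⟩, -, a6⟩ := exists_pair W w1 w2 w3
  rw [hk] at a6
  have hΔ : W.Δ = (k : ℤ) ^ 2 := by
    have : 256 * W.Δ = 256 * (k : ℤ) ^ 2 := by rw [a6]; push_cast; ring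
    linarith
  have hk0 : 0 < k := by
    rcases Nat.eq_zero_or_pos k with h | h
    · exact absurd (by rw [hΔ, h]; norm_num) w1
    · exact h
  have hcond : cond W = rd k := by
    unfold Pool.Agent.H925R.Szpiro.cond rd
    rw [hΔ, Int.natAbs_pow, Int.natAbs_natCast, Nat.primeFactors_pow _ (by norm_num)]
  have h1 : (rd k : ℝ) ≤ k := by exact_mod_cast Nat.le_of_dvd hk0 (Nat.prod_primeFactors_dvd _)
  rw [hcond, hΔ]
  push_cast
  rw [abs_of_nonneg (by positivity)]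
  exact pow_le_pow_left₀ (Nat.cast_nonneg _) h1 2

end Pool.Agent.Y680.S
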