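import Pool.Agent.Y680.S.Top
import Pool.Agent.Y911.AB.Main

/-!
# Many semistable curves with a discriminant larger than a power of the conductor
-/

set_option autoImplicit false

namespace Pool.Agent.Y680.S

open Finset Filter Topology Pool.Agent.H925R.Szpiro Pool.Agent.TH498.AR
  Pool.Agent.Results.MP_1ea25c_nt.AlmostAllTriples
open Pool.Agent.Y911.AB (DP mem_DP card_DP)
open Pool.Agent.Y911.AA (viol)

/-- the curves with conductor `N ≤ X` and `|Δ| ≥ N ^ κ` -/
def EC (κ X : ℝ) : Set (ℤ × ℤ) :=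
  {q | ∃ W : WeierstrassCurve ℤ, W.Δ ≠ 0 ∧ IsCoprime W.c₄ W.Δ ∧ Full W ∧ q = (W.c₄, W.c₆) ∧
    (Pool.Agent.H925R.Szpiro.cond W : ℝ) ≤ X ∧
    (Pool.Agent.H925R.Szpiro.cond W : ℝ) ^ κ ≤ |(W.Δ : ℝ)|}

theorem EC_finite (κ X : ℝ) : (EC κ X).Finite := by
  have h : (SC X).Finite := by
    rw [SC_eq]
    exact (GT_finite X).image _
  refine h.subset ?_
  rintro q ⟨W, h1, h2, h3, h4, h5, -⟩
  exact ⟨W, h1, h2, h3, h4, h5⟩

/-- the curve of the pair `(16 m² k, b)` -/
theorem prime_curve {m k b : ℕ} (hm : m.Prime) (hk : k.Prime) (hb : b.Prime)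
    (hab : 16 * (m ^ 2 * k) < b) {κ X P Z : ℝ} (hκ : 2 < κ) (hP : 0 < P) (hX : 1 ≤ X)
    (hmP : P ≤ m) (hZ : 0 < Z) (hc : ((16 * (m ^ 2 * k) + b : ℕ) : ℝ) ≤ Z) (hZP : Z ^ 3 = X * P)
    (hPX : P ^ κ = (X * P) ^ (κ - 2)) :
    ff (16 * (m ^ 2 * k), b) ∈ EC κ X ∧ (16 * (m ^ 2 * k), b) ∈ GT th X := by
  have hm0 := hm.pos
  have hk0 := hk.pos
  have hb0 := hb.pos
  have ha0 : 0 < 16 * (m ^ 2 * k) := by positivity
  have hcop : Nat.Coprime (16 * (m ^ 2 * k)) b := by
    rw [Nat.coprime_comm, hb.coprime_iff_not_dvd]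
    intro h
    exact absurd (Nat.le_of_dvd ha0 h) (not_le.2 hab)
  obtain ⟨s, hs⟩ : ∃ s : ℕ, s = 16 * (m ^ 2 * k) + b := ⟨_, rfl⟩
  have hs0 : 0 < s := by omega
  have h16 : 16 ∣ 16 * (m ^ 2 * k) * b * (16 * (m ^ 2 * k) + b) :=
    ((dvd_mul_right 16 _).mul_right _).mul_right _
  obtain ⟨W, w1, w2, w3, w4, w5⟩ := curve_of (p := (16 * (m ^ 2 * k), b)) ha0 hab.le hcop h16
  obtain ⟨K, hK⟩ : ∃ K : ℕ, K = m ^ 2 * k * b * s := ⟨_, rfl⟩
  have hK0 : 0 < K := by rw [hK]; positivity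
  have hΔ : W.Δ = (K : ℤ) ^ 2 := by
    have : 256 * W.Δ = 256 * (K : ℤ) ^ 2 := by
      rw [w5, hK, hs]
      push_cast
      ring
    linarith
  have hcond : Pool.Agent.H925R.Szpiro.cond W = rd K := by
    unfold Pool.Agent.H925R.Szpiro.cond rd
    rw [hΔ, Int.natAbs_pow, Int.natAbs_natCast, Nat.primeFactors_pow _ (by norm_num)]
  -- the radical
  have hrd : m * rd K ≤ K := by
    have h1 : rd K ∣ m * k * b * s := by
      have h2 : K.primeFactors = (m * k * b * s).primeFactors := by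
        rw [hK, Nat.primeFactors_mul (by positivity) (by positivity),
          Nat.primeFactors_mul (by positivity) (by positivity),
          Nat.primeFactors_mul (by positivity) (by positivity),
          Nat.primeFactors_mul (a := m * k * b) (by positivity) (by positivity),
          Nat.primeFactors_mul (a := m * k) (by positivity) (by positivity),
          Nat.primeFactors_mul (a := m) (by positivity) (by positivity),
          Nat.primeFactors_pow _ (by norm_num)]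
      unfold rd
      rw [h2]
      exact Nat.prod_primeFactors_dvd _
    calc m * rd K ≤ m * (m * k * b * s) :=
          Nat.mul_le_mul_left _ (Nat.le_of_dvd (by positivity) h1)
      _ = K := by rw [hK]; ring
  have hrd' : (rd K : ℝ) ≤ K / P := by
    rw [le_div_iff₀ hP]
    have e1 : (m : ℝ) * rd K ≤ K := by exact_mod_cast hrd
    calc (rd K : ℝ) * P ≤ (rd K : ℝ) * m := mul_le_mul_of_nonneg_left hmP (Nat.cast_nonneg _)
      _ = m * rd K := mul_comm _ _
      _ ≤ K := e1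
  have hKZ : (K : ℝ) ≤ Z ^ 3 := by
    have e1 : K ≤ s ^ 3 := by
      rw [hK]
      calc m ^ 2 * k * b * s ≤ s * s * s :=
            Nat.mul_le_mul_right _ (Nat.mul_le_mul (by omega) (by omega))
        _ = s ^ 3 := by ring
    have e2 : (K : ℝ) ≤ (s : ℝ) ^ 3 := by exact_mod_cast e1
    rw [← hs] at hc
    exact e2.trans (pow_le_pow_left₀ (Nat.cast_nonneg _) hc 3)
  have hKr : (0 : ℝ) < K := by exact_mod_cast hK0
  have hN : (Pool.Agent.H925R.Szpiro.cond W : ℝ) ≤ X := by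
    rw [hcond]
    refine hrd'.trans ?_
    rw [div_le_iff₀ hP, ← hZP]
    exact hKZ
  refine ⟨⟨W, w1, w2, w3, w4.symm, hN, ?_⟩, ?_⟩
  · rw [hcond, hΔ]
    push_cast
    rw [abs_of_nonneg (by positivity)]
    calc (rd K : ℝ) ^ κ ≤ ((K : ℝ) / P) ^ κ :=
          Real.rpow_le_rpow (Nat.cast_nonneg _) hrd' (by linarith)
      _ = (K : ℝ) ^ κ / P ^ κ := Real.div_rpow hKr.le hP.le _
      _ ≤ (K : ℝ) ^ 2 := by
          rw [div_le_iff₀ (by positivity)]
          have e1 : (K : ℝ) ^ κ = (K : ℝ) ^ 2 * (K : ℝ) ^ (κ - 2) := by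
            rw [← Real.rpow_natCast, ← Real.rpow_add hKr]
            congr 1
            push_cast
            ring
          rw [e1, hPX]
          refine mul_le_mul_of_nonneg_left ?_ (by positivity)
          refine Real.rpow_le_rpow hKr.le ?_ (by linarith)
          rw [← hZP]
          exact hKZ
  · refine ⟨ha0, hab.le, hcop, ?_⟩
    exact (cond_iff (p := (16 * (m ^ 2 * k), b)) ha0 hb0 hcop h16 w5 X).1 hN

/-- **The lower bound.** -/
theorem lower_EC {κ ε : ℝ} (hκ : 2 < κ) (hκ1 : κ < 9 / 4) (hε : 0 < ε) :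
    ∃ X₀ : ℝ, ∀ X : ℝ, X₀ ≤ X → X ^ (1 - κ / 6 - ε) ≤ ((EC κ X).ncard : ℝ) := by
  classical
  obtain ⟨M, hMκ⟩ : ∃ M : ℝ, M = κ / 6 := ⟨_, rfl⟩
  have hM : 1 / 3 < M := by rw [hMκ]; linarith
  have hM1 : M < 3 / 8 := by rw [hMκ]; linarith
  rw [← hMκ]
  obtain ⟨η, hη⟩ : ∃ η : ℝ, η = min 1 (ε / 2) := ⟨_, rfl⟩
  have hη0 : 0 < η := by rw [hη]; exact lt_min one_pos (by positivity)
  have hη1 : η ≤ 1 := by rw [hη]; exact min_le_left _ _
  have hηε : η ≤ ε / 2 := by rw [hη]; exact min_le_right _ _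
  have hprime := card_DP hη0 hη1
  -- the three sizes
  have t1 : Tendsto (fun X : ℝ => X ^ (3 * M - 1)) atTop atTop :=
    tendsto_rpow_atTop (by linarith)
  have t2 : Tendsto (fun X : ℝ => 1 / 1024 * X ^ (2 - 5 * M)) atTop atTop :=
    (tendsto_rpow_atTop (by linarith)).const_mul_atTop (by norm_num)
  have t3 : Tendsto (fun X : ℝ => 1 / 4 * X ^ M) atTop atTop :=
    (tendsto_rpow_atTop (by linarith)).const_mul_atTop (by norm_num)
  have t4 : Tendsto (fun X : ℝ => X ^ (3 - 8 * M)) atTop atTop :=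
    tendsto_rpow_atTop (by linarith)
  have t5 : Tendsto (fun X : ℝ => X ^ (ε / 2)) atTop atTop :=
    tendsto_rpow_atTop (by linarith)
  have key : ∀ᶠ X : ℝ in atTop, X ^ (1 - M - ε) ≤ ((EC κ X).ncard : ℝ) := by
    filter_upwards [t1.eventually hprime, t2.eventually hprime, t3.eventually hprime,
      t4.eventually (eventually_gt_atTop 2048), t5.eventually (eventually_ge_atTop 4096),
      eventually_ge_atTop 1] with X h1 h2 h3 h4 h5 hX
    have hX0 : 0 < X := by linarith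
    obtain ⟨P, hP⟩ : ∃ P : ℝ, P = X ^ (3 * M - 1) := ⟨_, rfl⟩
    obtain ⟨Z, hZ⟩ : ∃ Z : ℝ, Z = X ^ M := ⟨_, rfl⟩
    obtain ⟨Y, hY⟩ : ∃ Y : ℝ, Y = 1 / 1024 * X ^ (2 - 5 * M) := ⟨_, rfl⟩
    rw [← hP] at h1
    rw [← hY] at h2
    rw [← hZ] at h3
    have hP0 : 0 < P := by rw [hP]; positivity
    have hY0 : 0 < Y := by rw [hY]; positivity
    have hZ0 : 0 < Z := by rw [hZ]; positivity
    have hPY : 1024 * Y * P ^ 2 = Z := by
      rw [hY, hP, hZ, ← Real.rpow_natCast, ← Real.rpow_mul hX0.le]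
      calc 1024 * (1 / 1024 * X ^ (2 - 5 * M)) * X ^ ((3 * M - 1) * ((2 : ℕ) : ℝ)) =
            X ^ (2 - 5 * M) * X ^ ((3 * M - 1) * ((2 : ℕ) : ℝ)) := by ring
        _ = _ := by
            rw [← Real.rpow_add hX0]
            congr 1
            push_cast
            ring
    have hPY2 : 2 * P < Y := by
      have e : X ^ (2 - 5 * M) = X ^ (3 - 8 * M) * P := by
        rw [hP, ← Real.rpow_add hX0]
        congr 1
        ring
      rw [hY, e]
      nlinarith
    have hZP : Z ^ 3 = X * P := by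
      rw [hZ, hP, ← Real.rpow_natCast, ← Real.rpow_mul hX0.le]
      conv_rhs => rw [← Real.rpow_one X, ← Real.rpow_mul hX0.le]
      rw [← Real.rpow_add hX0]
      congr 1
      push_cast
      ring
    have hPX : P ^ κ = (X * P) ^ (κ - 2) := by
      rw [← hZP, hZ, hP, ← Real.rpow_mul hX0.le, ← Real.rpow_natCast, ← Real.rpow_mul hX0.le,
        ← Real.rpow_mul hX0.le]
      congr 1
      rw [hMκ]
      push_cast
      ring
    have hfin : (EC κ X).Finite := EC_finite κ X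
    rw [Set.ncard_eq_toFinset_card _ hfin]
    have hmem : ∀ x ∈ DP P ×ˢ (DP Y ×ˢ DP (1 / 4 * Z)),
        ff (16 * (x.1 ^ 2 * x.2.1), x.2.2) ∈ EC κ X ∧
          (16 * (x.1 ^ 2 * x.2.1), x.2.2) ∈ GT th X := by
      rintro ⟨m, k, b⟩ hx
      rw [mem_product, mem_product, mem_DP, mem_DP, mem_DP] at hx
      obtain ⟨⟨m1, m2, m3⟩, ⟨k1, k2, k3⟩, b1, b2, b3⟩ := hx
      simp only at m1 m2 m3 k1 k2 k3 b1 b2 b3
      have hm0 : (0 : ℝ) < m := hP0.trans_le m2
      have hk0 : (0 : ℝ) < k := hY0.trans_le k2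
      have ha : ((16 * (m ^ 2 * k) : ℕ) : ℝ) < Z / 8 := by
        push_cast
        have e1 : (m : ℝ) ^ 2 * k < (2 * P) ^ 2 * (2 * Y) := by
          apply mul_lt_mul'' (pow_lt_pow_left₀ m3 hm0.le (by norm_num)) k3 (by positivity) hk0.le
        have e2 : 16 * ((2 * P) ^ 2 * (2 * Y)) = Z / 8 := by
          rw [← hPY]
          ring
        linarith
      have hab : 16 * (m ^ 2 * k) < b := by
        have : ((16 * (m ^ 2 * k) : ℕ) : ℝ) < b := by linarith
        exact_mod_cast this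
      refine prime_curve m1 k1 b1 hab hκ hP0 hX m2 hZ0 ?_ hZP hPX
      rw [Nat.cast_add]
      linarith
    have hcard : (DP P ×ˢ (DP Y ×ˢ DP (1 / 4 * Z))).card ≤ hfin.toFinset.card := by
      refine card_le_card_of_injOn (fun x => ff (16 * (x.1 ^ 2 * x.2.1), x.2.2)) ?_ ?_
      · intro x hx
        rw [mem_coe, Set.Finite.mem_toFinset]
        exact (hmem x (mem_coe.1 hx)).1
      · intro x hx x' hx' h
        have g1 := (hmem x (mem_coe.1 hx)).2
        have g2 := (hmem x' (mem_coe.1 hx')).2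
        have h' := ff_injOn X g1 g2 h
        obtain ⟨m, k, b⟩ := x
        obtain ⟨m', k', b'⟩ := x'
        rw [mem_coe, mem_product, mem_product, mem_DP, mem_DP, mem_DP] at hx hx'
        obtain ⟨⟨m1, m2, m3⟩, ⟨k1, k2, k3⟩, b1, b2, b3⟩ := hx
        obtain ⟨⟨m1', m2', m3'⟩, ⟨k1', k2', k3'⟩, b1', b2', b3'⟩ := hx'
        simp only at m1 m2 m3 k1 k2 k3 b1 b2 b3 m1' m2' m3' k1' k2' k3' b1' b2' b3'
        simp only [Prod.mk.injEq] at h'
        obtain ⟨h6', h7⟩ := h'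
        have h6 : m ^ 2 * k = m' ^ 2 * k' := by omega
        have hkm : k ≠ m' := by
          intro he
          have : (k : ℝ) = m' := by exact_mod_cast he
          linarith
        have hkk : k = k' := by
          have hd : k ∣ m' ^ 2 * k' := by rw [← h6]; exact dvd_mul_left _ _
          rcases (k1.dvd_mul).1 hd with h | h
          · exact absurd ((Nat.prime_dvd_prime_iff_eq k1 m1').1 (k1.dvd_of_dvd_pow h)) hkm
          · exact (Nat.prime_dvd_prime_iff_eq k1 k1').1 h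
        have hmm : m = m' := by
          rw [hkk] at h6
          have h8 := Nat.eq_of_mul_eq_mul_right k1'.pos h6
          exact Nat.pow_left_injective (n := 2) (by norm_num) h8
        simp only [Prod.mk.injEq]
        exact ⟨hmm, hkk, h7⟩
    have hcard' : ((DP P).card : ℝ) * (((DP Y).card : ℝ) * ((DP (1 / 4 * Z)).card : ℝ)) ≤
        (hfin.toFinset.card : ℝ) := by
      rw [card_product, card_product] at hcard
      exact_mod_cast hcard
    refine le_trans ?_ hcard'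
    have h6 : (P * (Y * (1 / 4 * Z))) ^ (1 - η) ≤
        ((DP P).card : ℝ) * (((DP Y).card : ℝ) * ((DP (1 / 4 * Z)).card : ℝ)) := by
      rw [Real.mul_rpow hP0.le (by positivity), Real.mul_rpow hY0.le (by positivity)]
      gcongr
    refine le_trans ?_ h6
    have h7 : P * (Y * (1 / 4 * Z)) = 1 / 4096 * X ^ (1 - M) := by
      rw [hP, hY, hZ]
      calc X ^ (3 * M - 1) * (1 / 1024 * X ^ (2 - 5 * M) * (1 / 4 * X ^ M)) =
            1 / 4096 * (X ^ (3 * M - 1) * X ^ (2 - 5 * M) * X ^ M) := by ring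
        _ = _ := by
            rw [← Real.rpow_add hX0, ← Real.rpow_add hX0]
            congr 2
            ring
    rw [h7, Real.mul_rpow (by norm_num) (by positivity), ← Real.rpow_mul hX0.le]
    have h8 : (1 : ℝ) / 4096 ≤ (1 / 4096 : ℝ) ^ (1 - η) := by
      calc (1 : ℝ) / 4096 = (1 / 4096 : ℝ) ^ (1 : ℝ) := by rw [Real.rpow_one]
        _ ≤ _ := Real.rpow_le_rpow_of_exponent_ge (by norm_num) (by norm_num) (by linarith)
    have h9 : X ^ (1 - M - ε) * 4096 ≤ X ^ ((1 - M) * (1 - η)) := by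
      calc X ^ (1 - M - ε) * 4096 ≤ X ^ (1 - M - ε) * X ^ (ε / 2) :=
            mul_le_mul_of_nonneg_left h5 (by positivity)
        _ = X ^ (1 - M - ε / 2) := by
            rw [← Real.rpow_add hX0]
            congr 1
            ring
        _ ≤ _ := by
            refine Real.rpow_le_rpow_of_exponent_le hX ?_
            have : 0 ≤ M * η := by positivity
            nlinarith
    calc X ^ (1 - M - ε) = 1 / 4096 * (X ^ (1 - M - ε) * 4096) := by ring
      _ ≤ (1 / 4096 : ℝ) ^ (1 - η) * X ^ ((1 - M) * (1 - η)) := by gcongr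
  obtain ⟨X₀, hX₀⟩ := eventually_atTop.1 key
  exact ⟨X₀, hX₀⟩

/-- the upper bound -/
theorem EC_le {κ X : ℝ} (hκ : 2 < κ) (hκ3 : κ ≤ 3) (hX : 1 ≤ X) :
    (EC κ X).ncard ≤ (viol (κ / 6) (2 * X)).ncard := by
  have hX0 : 0 < X := by linarith
  have hfin : (viol (κ / 6) (2 * X)).Finite :=
    (Pool.Agent.Y911.AA.triples_finite' (2 * X)).subset fun p hp => hp.1
  have hsub : EC κ X ⊆ ff '' viol (κ / 6) (2 * X) := by
    rintro q ⟨W, w1, w2, w3, rfl, w5, w6⟩
    obtain ⟨p, a1, a2, a3, a4, a5, a6⟩ := exists_pair W w1 w2 w3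
    have hp : p ∈ GT th X := ⟨a1, a2, a3, (cond_iff a1 (by omega) a3 a4 a6 X).1 w5⟩
    have hp' := GT_sub hX0.le hp
    refine ⟨p, ⟨hp', ?_⟩, a5.symm⟩
    by_contra hcon
    rw [not_le] at hcon
    obtain ⟨c, hc⟩ : ∃ c : ℝ, c = ((p.1 + p.2 : ℕ) : ℝ) := ⟨_, rfl⟩
    have b1 : (1 : ℝ) ≤ p.1 := by exact_mod_cast a1
    have b2 : (p.1 : ℝ) ≤ p.2 := by exact_mod_cast a2
    have hc2 : 2 ≤ c := by rw [hc]; push_cast; linarith
    rw [← hc] at hcon
    have hD : 256 * (W.Δ : ℝ) = ((p.1 : ℝ) * p.2 * (p.1 + p.2)) ^ 2 := by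
      have := a6
      exact_mod_cast this
    have hD0 : 0 ≤ (W.Δ : ℝ) := by
      have : 0 ≤ ((p.1 : ℝ) * p.2 * (p.1 + p.2)) ^ 2 := sq_nonneg _
      linarith
    have hD1 : (W.Δ : ℝ) ≤ c ^ 6 / 4096 := by
      have h2 : (p.1 : ℝ) * p.2 ≤ c ^ 2 / 4 := by
        rw [hc]
        push_cast
        nlinarith [sq_nonneg ((p.1 : ℝ) - p.2)]
      have h3 : (p.1 : ℝ) * p.2 * (p.1 + p.2) ≤ c ^ 2 / 4 * c := by
        refine mul_le_mul h2 ?_ (by positivity) (by positivity)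
        rw [hc]
        push_cast
        exact le_rfl
      have h4 : ((p.1 : ℝ) * p.2 * (p.1 + p.2)) ^ 2 ≤ (c ^ 2 / 4 * c) ^ 2 :=
        pow_le_pow_left₀ (by positivity) h3 2
      nlinarith
    have hr : (rad3 p : ℝ) ≤ 2 * Pool.Agent.H925R.Szpiro.cond W := by
      have h2 := (cond_iff a1 (by omega) a3 a4 a6 (Pool.Agent.H925R.Szpiro.cond W : ℝ)).1 le_rfl
      refine le_trans ?_ (mul_le_mul_of_nonneg_right (th_le (psi3 ∅ p)) (Nat.cast_nonneg _))
      exact h2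
    have hr1 : (1 : ℝ) ≤ rad3 p := rd_pos' _
    have hN1 : (1 : ℝ) ≤ Pool.Agent.H925R.Szpiro.cond W := rd_pos' _
    have h5 : c ^ 6 ≤ (rad3 p : ℝ) ^ κ := by
      have h6 : c ^ 6 ≤ ((rad3 p : ℝ) ^ (κ / 6)) ^ 6 :=
        pow_le_pow_left₀ (by linarith) hcon.le 6
      have h7 : ((rad3 p : ℝ) ^ (κ / 6)) ^ 6 = (rad3 p : ℝ) ^ κ := by
        rw [← Real.rpow_natCast ((rad3 p : ℝ) ^ (κ / 6)) 6, ← Real.rpow_mul (by positivity)]
        congr 1
        push_cast
        ring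
      rw [h7] at h6
      exact h6
    have h8 : (rad3 p : ℝ) ^ κ ≤ 8 * (Pool.Agent.H925R.Szpiro.cond W : ℝ) ^ κ := by
      calc (rad3 p : ℝ) ^ κ ≤ (2 * (Pool.Agent.H925R.Szpiro.cond W : ℝ)) ^ κ :=
            Real.rpow_le_rpow (by positivity) hr (by linarith)
        _ = 2 ^ κ * (Pool.Agent.H925R.Szpiro.cond W : ℝ) ^ κ := Real.mul_rpow (by norm_num)
            (by positivity)
        _ ≤ 2 ^ (3 : ℝ) * (Pool.Agent.H925R.Szpiro.cond W : ℝ) ^ κ := by
            refine mul_le_mul_of_nonneg_right ?_ (by positivity)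
            exact Real.rpow_le_rpow_of_exponent_le (by norm_num) (by linarith)
        _ = _ := by norm_num
    have h10 : 0 < (Pool.Agent.H925R.Szpiro.cond W : ℝ) ^ κ := by positivity
    rw [abs_of_nonneg hD0] at w6
    linarith
  exact (Set.ncard_le_ncard hsub (hfin.image _)).trans (Set.ncard_image_le hfin)

/-- **The exponent.** -/
theorem main_exp : ∃ κ₀ : ℝ, 2 < κ₀ ∧ ∀ κ : ℝ, 2 < κ → κ ≤ κ₀ →
    Tendsto (fun X : ℝ => Real.log ((EC κ X).ncard : ℝ) / Real.log X) atTop (𝓝 (1 - κ / 6)) := by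
  obtain ⟨M₀, h1, h2, hup⟩ := Pool.Agent.Y911.AB.upper_exc
  refine ⟨6 * M₀, by linarith, fun κ hκ hκ0 => ?_⟩
  refine Pool.Agent.Y911.AB.tendsto_exponent (fun ε hε => ?_)
    (fun ε hε => lower_EC hκ (by linarith) hε)
  obtain ⟨C, hC, h⟩ := hup (κ / 6) (by linarith) (by linarith) ε hε
  refine ⟨C * 2 ^ (1 - κ / 6 + ε), by positivity, fun X hX => ?_⟩
  have hX0 : 0 < X := by linarith
  calc ((EC κ X).ncard : ℝ) ≤ ((viol (κ / 6) (2 * X)).ncard : ℝ) :=
        Nat.cast_le.2 (EC_le hκ (by linarith) hX)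
    _ ≤ C * (2 * X) ^ (1 - κ / 6 + ε) := h (2 * X) (by linarith)
    _ = _ := by
        rw [Real.mul_rpow (by norm_num) hX0.le]
        ring

end Pool.Agent.Y680.S
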